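import Pool.Agent.H.MP_93a5dd_an.C

open Pool.Agent.H.MP_93a5dd_an

namespace Pool.Agent.Results.MP_93a5dd_an.Main

theorem result (d : ℕ) (hd : 1 ≤ d) : ∃ X Y : TSys d,
    (∀ μ, Inv Y μ → Realized Y X μ) ∧ ¬ AlmostBorelEmb Y X :=
  main d hd

end Pool.Agent.Results.MP_93a5dd_an.Main
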